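import Pool.Agent.Helper46.NU.DfnT

/-! # MP_1fe1ca_lc: packet SYN -/

noncomputable section

namespace NU.PkSYN

open Pool.Agent.Helper97.Ku

theorem reals (i j r s : ℕ) (hi : i ≠ r) (hj : j ≠ r) (hi' : i ≠ s) (hr : r ≠ s) :
    Dfn (fun _ E w => IsReals E (w i) (w j)) (fun _ _ w => realsV (w i) (w j)) :=
  Dfn.congr (Dfn.all r (Dfn.imp (Dfn.mem r j) (Dfn.sub r i s hr hi')))
    (fun N E w => by simp [IsReals, Function.update_of_ne hi, Function.update_of_ne hj])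
    (fun L _ w => by simp [realsV, Function.update_of_ne hi, Function.update_of_ne hj])

theorem inj (syi : G_SYI) (a b : ℕ) :
    Dfn (fun _ E w => Inj E (fun y => E y (w a)) (fun M => E M (w b)))
      (fun _ _ w => injV (fun y => y.mem (w a)) (fun M => M.mem (w b))) := by
  refine syi (max a b + 1) (fun _ E w y => E y (w a)) (fun _ E w M => E M (w b))
    (fun _ _ w y => y.mem (w a)) (fun _ _ w M => M.mem (w b)) ?_ ?_ ?_ ?_
  · intro N E w w' h
    have h1 := h a (by omega)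
    have h2 := h b (by omega)
    constructor
    · funext y; rw [h1]
    · funext y; rw [h2]
  · intro L _ w w' h
    have h1 := h a (by omega)
    have h2 := h b (by omega)
    constructor
    · funext y; rw [h1]
    · funext y; rw [h2]
  · intro k
    exact Dfn.mem k a
  · intro k
    exact Dfn.mem k b

theorem addD (sya : G_SYA) (syi : G_SYI) :
    Dfn (fun _ E w => AddLtNon E (w 0)) (fun _ _ w => addV (w 0)) :=
  Dfn.congr (Dfn.ex 1 (Dfn.and (Dfn.all 2 (Dfn.imp (Dfn.mem 2 1) (sya 0 2)))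
    (Dfn.and (Dfn.all 2 (Dfn.imp (sya 0 2) (Dfn.neg (Dfn.all 3 (Dfn.imp (Dfn.mem 3 1)
      (Dfn.sub 3 2 4 (by decide) (by decide)))))))
    (Dfn.all 2 (Dfn.imp (reals 0 2 3 4 (by decide) (by decide) (by decide) (by decide))
      (Dfn.imp (Dfn.neg (sya 0 2)) (Dfn.neg (inj syi 2 1))))))))
    (fun N E w => by simp [AddLtNon])
    (fun L _ w => by simp [addV, famV])

theorem nonD (sya : G_SYA) (syi : G_SYI) :
    Dfn (fun _ E w => NonLtCov E (w 0)) (fun _ _ w => nonV (w 0)) :=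
  Dfn.congr (Dfn.ex 1 (Dfn.and (reals 0 1 3 4 (by decide) (by decide) (by decide) (by decide))
    (Dfn.and (Dfn.neg (sya 0 1))
    (Dfn.all 2 (Dfn.imp (Dfn.all 3 (Dfn.imp (Dfn.mem 3 2) (sya 0 3)))
      (Dfn.imp (Dfn.all 3 (Dfn.imp (Dfn.sub 3 0 4 (by decide) (by decide))
        (Dfn.ex 4 (Dfn.and (Dfn.mem 4 2) (Dfn.mem 3 4)))))
        (Dfn.neg (inj syi 2 1))))))))
    (fun N E w => by simp [NonLtCov])
    (fun L _ w => by simp [nonV, famV, crV])

theorem ccD (sya : G_SYA) (syi : G_SYI) :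
    Dfn (fun _ E w => CovLtCof E (w 0)) (fun _ _ w => ccV (w 0)) :=
  Dfn.congr (Dfn.ex 1 (Dfn.and (Dfn.all 2 (Dfn.imp (Dfn.mem 2 1) (sya 0 2)))
    (Dfn.and (Dfn.all 2 (Dfn.imp (Dfn.sub 2 0 3 (by decide) (by decide))
        (Dfn.ex 3 (Dfn.and (Dfn.mem 3 1) (Dfn.mem 2 3)))))
    (Dfn.all 2 (Dfn.imp (Dfn.all 3 (Dfn.imp (Dfn.mem 3 2) (sya 0 3)))
      (Dfn.imp (Dfn.all 3 (Dfn.imp (sya 0 3)
        (Dfn.ex 4 (Dfn.and (Dfn.mem 4 2) (Dfn.sub 3 4 5 (by decide) (by decide))))))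
        (Dfn.neg (inj syi 2 1))))))))
    (fun N E w => by simp [CovLtCof])
    (fun L _ w => by simp [ccV, famV, crV])

theorem tra (i r s : ℕ) (hi : i ≠ r) (hi' : i ≠ s) (hr : r ≠ s) :
    Dfn (fun _ E w => Tra E (w i)) (fun _ _ w => traV (w i)) :=
  Dfn.congr (Dfn.all r (Dfn.imp (Dfn.mem r i) (Dfn.all s (Dfn.imp (Dfn.mem s r) (Dfn.mem s i)))))
    (fun N E w => by
      simp [Tra, Function.update_of_ne hi, Function.update_of_ne hi', Function.update_of_ne hr])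
    (fun L _ w => by
      simp [traV, Function.update_of_ne hi, Function.update_of_ne hi', Function.update_of_ne hr])

theorem omD : Dfn (fun _ E w => IsOmega E (w 0)) (fun _ _ w => omegaV (w 0)) :=
  Dfn.congr (Dfn.and (Dfn.and (tra 0 1 2 (by decide) (by decide) (by decide))
      (Dfn.all 1 (Dfn.imp (Dfn.mem 1 0) (tra 1 2 3 (by decide) (by decide) (by decide)))))
    (Dfn.and (Dfn.ex 1 (Dfn.mem 1 0))
    (Dfn.and (Dfn.all 1 (Dfn.imp (Dfn.mem 1 0) (Dfn.ex 2 (Dfn.and (Dfn.mem 2 0) (Dfn.mem 1 2)))))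
    (Dfn.all 1 (Dfn.imp (Dfn.mem 1 0) (Dfn.or (Dfn.all 2 (Dfn.neg (Dfn.mem 2 1)))
      (Dfn.ex 2 (Dfn.and (Dfn.mem 2 1) (Dfn.all 3 (Dfn.imp (Dfn.mem 3 1)
        (Dfn.or (Dfn.mem 3 2) (Dfn.eq 3 2))))))))))))
    (fun N E w => by simp [IsOmega, IsOrd])
    (fun L _ w => by simp [omegaV, ordV])

theorem syn (sya : G_SYA) (syi : G_SYI) : G_SYN :=
  Dfn.congr (Dfn.ex 0 (Dfn.and omD (Dfn.and (addD sya syi) (Dfn.and (nonD sya syi)
    (ccD sya syi)))))
    (fun N E w => by simp [Sep])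
    (fun L _ w => by simp [sepV])

end NU.PkSYN

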